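import Mathlib
import Pool.Agent.V5helper43.ET.Shifts

set_option autoImplicit false

/-!
# One random shift per dyadic block makes the representation function unbounded

`rep A m` is the number of ordered pairs `(a, b)` in `A × A` with `a + b = m`, and
`shifted B s` is the union of the translates `B k + s k` of the blocks `B k`.
-/

namespace Pool.Agent.Results.MP_12a1af_nt.BlockShifts

open MeasureTheory ProbabilityTheory Pool.Agent.V5helper43.ET

/-- Let `B 0, B 1, ...` be sets of natural numbers and `τ 0, τ 1, ...` independent random natural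
numbers.  Suppose that there are arbitrarily long windows of scales `m ≤ j < m + M ^ s` (`s`
arbitrarily large) on which, up to a factor `M`, the block `B j` has at least `2 ^ j` elements below
`W * 4 ^ j` and `τ j` has density at least `4 ^ (-j)` on `[0, 4 W 4 ^ j)`, where `W ≤ M`.  Then
almost surely the union of the blocks `B k + τ k` has an unbounded representation function. -/
theorem result {Ω : Type*} [MeasurableSpace Ω] (μ : Measure Ω) [IsProbabilityMeasure μ]
    (B : ℕ → Set ℕ) (τ : ℕ → Ω → ℕ) (hτ : ∀ k, Measurable (τ k)) (hind : iIndepFun τ μ)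
    (hwin : ∀ s N : ℕ, ∃ m M W : ℕ, N ≤ M ∧ W ≤ M ∧ ∀ j, m ≤ j → j < m + M ^ s →
      B j ⊆ Set.Iio (W * 4 ^ j) ∧ 2 ^ j ≤ M * (B j).ncard ∧
      ∀ t < 4 * W * 4 ^ j, 1 ≤ M * 4 ^ j * μ.real {ω | τ j ω = t}) :
    ∀ᵐ ω ∂μ, ∀ K : ℕ, ∃ m, K ≤ rep (shifted B (fun k => τ k ω)) m :=
  block_shifts μ B τ hτ hind hwin

end Pool.Agent.Results.MP_12a1af_nt.BlockShifts
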