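import Pool.Agent.V5helper49.IR.All2

set_option autoImplicit false

/-!
# The Erdős-Turán problem for random sets with independent elements

Let `A` be a random set of natural numbers such that the events `n ∈ A` are independent, with
arbitrary probabilities.

1. (Q1) Let `D` be the set of the nearly certain elements, `P(k ∈ A) > 1 - δ`, and suppose that `D + D`
misses a positive proportion of the integers up to every large `N` (for example, that
`P(k ∈ A) ≤ 1 - δ` for all `k`). Then, with a constant `c > 0` which depends only on the parameters,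
almost surely: for EVERY set `E`, chosen with the knowledge of `A`, with at most `N^θ` elements up to
`N`, `θ < 1/2`: if `A ∪ E` is a basis of order two then `A` has at least `c √(N log N)` elements up to
every large `N`, and `r_A(n) ≥ c log n` for infinitely many `n`. So the random set of Erdős (1956)
with `r_A(n) ≍ log n` is optimal among all random sets with independent elements.

2. (Q2) If `P(n ∈ A) → 0` then almost surely: if `A` has `≥ c √N` elements up to infinitely many `N`,
for some `c > 0` (for example if `a_n ≤ C n²`), then `r_A` is unbounded. (Without `P(n ∈ A) → 0` this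
would contain Q2: let every element of a counterexample belong to `A` with probability `1/2`.)

Proof. If the expected number of elements up to `N` is `≤ c √(N log N)` then for a positive proportion
of the `n ≤ N` the expected number of representations is `≤ ε log N`, and the probability that `n` is
not represented is `≥ N^(-ε/δ)`. The covariance of the events for `n` and `m` is at most
`∑ p_k p_(n-k) p_(m-k)` (plus two terms for the elements `n/2`, `m/2`), and the sum of these over
`n, m ≤ N` is at most the third power of the expected number of elements, `N^(3/2+o(1))`. So with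
probability `≥ 1 - N^(-1/4)` there are `N^(1-κ)` integers `n ≤ N` without representation, more than a
sparse set `E` can repair. In 2. the events `r_A(n) ≥ K` have positive probability for many `n`
(binomial moments), or the expected number of representations of some `n` is large.
-/

namespace Pool.Agent.Results.MP_12a1af_nt.IndependentRandomSets

open MeasureTheory ProbabilityTheory Filter

/-- `r_A(n)`: the number of ordered pairs of elements of `A` with sum `n` -/
noncomputable def rep (A : Set ℕ) (n : ℕ) : ℕ := {x : ℕ × ℕ | x.1 ∈ A ∧ x.2 ∈ A ∧ x.1 + x.2 = n}.ncard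

/-- the number of the elements of `S` which are at most `N` -/
noncomputable def upTo (S : Set ℕ) (N : ℕ) : ℕ := (S ∩ Set.Iic N).ncard

/-- the numbers which are not sums of two elements of `D` -/
def notSums (D : Set ℕ) : Set ℕ := {n | ∀ a ∈ D, ∀ b ∈ D, a + b ≠ n}

/-- the numbers which are elements of the random set `A` with a probability larger than `1 - δ` -/
def nearlyCertain {Ω : Type*} [MeasurableSpace Ω] (μ : Measure Ω) (A : Ω → Set ℕ) (δ : ℝ) : Set ℕ :=
  {k | 1 - δ < μ.real {ω | k ∈ A ω}}

lemma set_eq {Ω : Type*} [MeasurableSpace Ω] (μ : Measure Ω) (A : Ω → Set ℕ) (δ : ℝ) :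
    {n : ℕ | ∀ k ≤ n, μ.real {ω | k ∈ A ω} ≤ 1 - δ ∨ μ.real {ω | n - k ∈ A ω} ≤ 1 - δ} =
      notSums (nearlyCertain μ A δ) := by
  ext n
  unfold notSums nearlyCertain
  simp only [Set.mem_ofPred_eq]
  constructor
  · intro h a ha b hb hab
    have h1 := h a (by omega)
    have h2 : n - a = b := by omega
    rw [h2] at h1
    rcases h1 with h1 | h1 <;> linarith
  · intro h k hk
    by_contra hcon
    push Not at hcon
    exact h k hcon.1 (n - k) hcon.2 (by omega)

/-- **Theorem.** -/
theorem result :
    (∀ δ η θ : ℝ, 0 < δ → 0 < η → θ < 1 / 2 → ∃ c : ℝ, 0 < c ∧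
      ∀ {Ω : Type*} [MeasurableSpace Ω] (μ : Measure Ω) [IsProbabilityMeasure μ] (A : Ω → Set ℕ),
      (∀ n, MeasurableSet {ω | n ∈ A ω}) → iIndepSet (fun n => {ω | n ∈ A ω}) μ →
      (∀ᶠ N : ℕ in atTop, η * N ≤ (upTo (notSums (nearlyCertain μ A δ)) N : ℝ)) →
      ∀ᵐ ω ∂μ, ∀ E : Set ℕ, (∀ᶠ N : ℕ in atTop, (upTo E N : ℝ) ≤ (N : ℝ) ^ θ) →
        (∀ᶠ n : ℕ in atTop, 1 ≤ rep (A ω ∪ E) n) →
        (∀ᶠ N : ℕ in atTop, c * Real.sqrt (N * Real.log N) ≤ (upTo (A ω) N : ℝ)) ∧
        ∃ᶠ n : ℕ in atTop, c * Real.log n ≤ (rep (A ω) n : ℝ)) ∧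
    ∀ {Ω : Type*} [MeasurableSpace Ω] (μ : Measure Ω) [IsProbabilityMeasure μ] (A : Ω → Set ℕ),
      (∀ n, MeasurableSet {ω | n ∈ A ω}) → iIndepSet (fun n => {ω | n ∈ A ω}) μ →
      Tendsto (fun n => μ.real {ω | n ∈ A ω}) atTop (nhds 0) →
      ∀ᵐ ω ∂μ, (∃ c : ℝ, 0 < c ∧ ∃ᶠ N : ℕ in atTop, c * Real.sqrt N ≤ (upTo (A ω) N : ℝ)) →
        ∀ K : ℕ, ∃ n : ℕ, K ≤ rep (A ω) n := by
  constructor
  · intro δ η θ hδ hη hθ
    obtain ⟨c, hc, h⟩ := Pool.Agent.V5helper49.IR.main δ η θ hδ hη hθ
    refine ⟨c, hc, ?_⟩
    intro Ω _ μ _ A hm hi hD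
    refine h μ A hm hi ?_
    rw [set_eq μ A δ]
    exact hD
  · intro Ω _ μ _ A hm hi h0
    exact Pool.Agent.V5helper49.IR.main2 μ A hm hi h0

end Pool.Agent.Results.MP_12a1af_nt.IndependentRandomSets
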