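import Mathlib
import Pool.Agent.V5helper43.ET.Mono2

set_option autoImplicit false

/-!
# Monochromatic additive quadruples in sets with `a_n ≤ C n ^ 2`

`rep A n` is the number of ordered pairs `(a, b)` in `A × A` with `a + b = n`, and `dif B N d` is the
number of the pairs `(x, y)` of elements of `B` with `x ≤ N` and `x = y + d`.

Let `a_n ≤ C n ^ 2` for all `n ≥ 1`, and let `A ∩ [0, N]` be covered by `s` sets `S i` (for instance
the classes of a colouring).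

1. For every `H` with `N ≤ H ^ 2` and `log (N / H) ≥ 768 C s ^ 2` there are many additive quadruples
   with difference less than `H` inside the classes `A ∩ S i`.
2. If `N ≥ exp ((1536 C + 3) s ^ 2)`, then `∑ r_{A ∩ S i}(n) ^ 2` over all `i` and all `n ≤ N` with
   `r_{A ∩ S i}(n) ≥ 4` is at least `exp (-768 C s ^ 2) N`.
-/

namespace Pool.Agent.Results.MP_12a1af_nt.MonochromaticQuadruples

open Finset Pool.Agent.V5helper43.ET

open Classical in
theorem result (C : ℝ) (hC : 0 < C) (A : Set ℕ) (hA : A.Infinite)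
    (hnth : ∀ n : ℕ, (Nat.nth (fun a => a ∈ A) n : ℝ) ≤ C * ((n : ℝ) + 1) ^ 2)
    (s : ℕ) (hs : 1 ≤ s) (N : ℕ) (S : Fin s → Set ℕ) (hcov : ∀ a ∈ A, a ≤ N → ∃ i, a ∈ S i) :
    (∀ H : ℕ, 0 < H → N ≤ H ^ 2 → 768 * C * (s : ℝ) ^ 2 ≤ Real.log ((N : ℝ) / H) →
      H * Real.log ((N : ℝ) / H) ^ 2 / (73728 * C ^ 2 * s ^ 3) ≤
        ∑ i, ∑ d ∈ Ico 1 H, (dif (A ∩ S i) N d : ℝ) * ((dif (A ∩ S i) N d : ℝ) - 1)) ∧
    (Real.exp ((1536 * C + 3) * (s : ℝ) ^ 2) ≤ N →
      Real.exp (-(768 * C * (s : ℝ) ^ 2)) * N ≤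
        ∑ i, ∑ n ∈ (range (N + 1)).filter (fun n => 4 ≤ rep (A ∩ S i) n),
          (rep (A ∩ S i) n : ℝ) ^ 2) :=
  ⟨fun H hH hNH hlog => (all_scales C hC A hA hnth N H s hs hH hNH hlog S hcov).1,
    fun hN => density C hC A hA hnth N s hs hN S hcov⟩

end Pool.Agent.Results.MP_12a1af_nt.MonochromaticQuadruples
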