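import Pool.Agent.V5helper43.NC.Trade

/-!
# MP_12a1af_nt, Q1 and Q2: how often can `r_A(n)` differ from `2`?

`rep A n` is the number `r_A(n)` of ordered pairs `(a, b) ∈ A × A` with `a + b = n`.

Let `F` be a nondecreasing function with `(log n) ^ 4 ≤ F(n) ≤ n` for large `n` and
`F(n ^ 2) = O(F(n) ^ 2)`, for example `F(n) = (log n) ^ K` with `K ≥ 4`,
`F(n) = exp ((log n) ^ θ)` with `0 < θ < 1`, or `F(n) = n ^ ε` with `0 < ε ≤ 1`.

* There is a set `A` such that every large `n` is a sum of two elements of `A`, `A` has `O(√x)` elements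
  up to `x` (up to the constant, `A` is as thin as an asymptotic basis of order 2 can be),
  `r_A(n) ≤ F(n)` for all large `n`, and `r_A(n) = 2` (one representation up to the order of the
  summands) for all `n ≤ x` with `O(x / F(x) ^ (1/1000))` exceptions.
* Conversely, for every `A` such that every large `n` is a sum of two elements of `A` and
  `r_A(n) ≤ F(n)` for all large `n`, there are at least `δ x / F(x) ^ 2` numbers `n ≤ x` with
  `r_A(n) ≥ 4`, for all large `x`, with some `δ > 0`.

So, up to the value of the exponent, the smallest possible number of exceptions to `r_A(n) = 2` is a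
power of `F(x)` smaller than `x`. In particular, for every `k` there is an asymptotic basis with
polylogarithmic `r_A` and with `r_A(n) = 2` up to `O(x / (log x) ^ k)` exceptions, and with
polylogarithmic `r_A` one cannot save more than a power of the logarithm. The starting result
`NearCounterexample` has `O(x / log log x)` exceptions.

Construction. `n` is written in blocks of base 4 digits, block `i` having `s_i = 2 l_i` digits. One part
`A_1` of `A` uses the digits `0, 1`, the other part `A_2` the digits `0, 2`, but in block `i` the part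
with digits `0, 1` is translated by a number with digits `0, 2` depending on all the lower digits (a
hash value), and vice versa; so every `n` is decoded uniquely block after block, and a proper choice of
the hash values makes all the numbers of representations modulo `4 ^ m_i` small. An element of size
between `4 ^ (m_i + l_i)` and `4 ^ (m_(i+1) + l_(i+1))` uses hash values in the blocks below `m_i` only.
The thresholds lie in the middle of the blocks. Because of this the two summands of `n` use different
numbers of hashed blocks, or one of them falls below a threshold, only for a proportion `4 ^ (-l_i)`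
of all `n`, and all `n` for which this happens are repaired by sparse additional sets `B_i` (translates
by `193 * 4 ^ m_(i+1)` and partial overlaps). The two elements of a sum are of the same part only for
`(3/4) ^ l_i` of all `n`.

The proof was divided into sixteen parts and formalised by helpers 4, 6, 43, 49, 50, 55, 85, 95, 98
of this pool (files `NC/*.lean`); the hashing lemma is that of the starting library `Y940.HB`.
-/

set_option autoImplicit false

open Filter

namespace Pool.Agent.Results.MP_12a1af_nt.SharpTradeoff

/-- `r_A(n)`: the number of ordered pairs of elements of `A` with sum `n` -/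
noncomputable def rep (A : Set ℕ) (n : ℕ) : ℕ :=
  {p : ℕ × ℕ | p.1 ∈ A ∧ p.2 ∈ A ∧ p.1 + p.2 = n}.ncard

/-- For every nondecreasing `F` with `(log n) ^ 4 ≤ F(n) ≤ n` (large `n`) and
`F(n ^ 2) = O(F(n) ^ 2)` there is a thin asymptotic basis with `r_A ≤ F` and `r_A(n) = 2` up to
`O(x / F(x) ^ (1/1000))` exceptions; every asymptotic basis with `r_A ≤ F` has at least
`δ x / F(x) ^ 2` exceptions. -/
theorem result (F : ℕ → ℝ) (hF : Monotone F)
    (hlo : ∀ᶠ n : ℕ in atTop, Real.log n ^ 4 ≤ F n) (hup : ∀ᶠ n : ℕ in atTop, F n ≤ n)
    (hreg : ∃ D : ℝ, ∀ᶠ n : ℕ in atTop, F (n ^ 2) ≤ D * F n ^ 2) :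
    (∃ A : Set ℕ, (∀ᶠ n in atTop, 1 ≤ rep A n) ∧
      (∃ C : ℝ, ∀ x : ℕ, 1 ≤ x → ({a | a ∈ A ∧ a ≤ x}.ncard : ℝ) ≤ C * Real.sqrt x) ∧
      (∀ᶠ n in atTop, (rep A n : ℝ) ≤ F n) ∧
      (∃ C : ℝ, ∀ᶠ x : ℕ in atTop, ({n | n ≤ x ∧ rep A n ≠ 2}.ncard : ℝ) ≤
        C * x / F x ^ (1 / 1000 : ℝ))) ∧
    (∀ A : Set ℕ, (∀ᶠ n in atTop, 1 ≤ rep A n) → (∀ᶠ n in atTop, (rep A n : ℝ) ≤ F n) →
      ∃ δ : ℝ, 0 < δ ∧ ∀ᶠ x : ℕ in atTop,
        δ * x / F x ^ 2 ≤ ({n | n ≤ x ∧ 4 ≤ rep A n}.ncard : ℝ)) :=
  ⟨Pool.Agent.V5helper43.NC.upper F hF hlo hup hreg,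
    fun A hA hr => Pool.Agent.V5helper43.NC.lower F hF A hA hr⟩

end Pool.Agent.Results.MP_12a1af_nt.SharpTradeoff
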